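import Mathlib

namespace Pool.Agent.Results.MP_514f39_an.PermNoBasis

open Filter Topology

/-- `y = ∑ αₙ xₙ`, with norm convergence of the partial sums in the given order. -/
def Expands (𝕜 : Type) {E : Type} [RCLike 𝕜] [NormedAddCommGroup E] [NormedSpace 𝕜 E]
    (x : ℕ → E) (α : ℕ → 𝕜) (y : E) : Prop :=
  Tendsto (fun N => ∑ i ∈ Finset.range N, α i • x i) atTop (𝓝 y)

/-- Schauder basis. -/
def IsBasis (𝕜 : Type) {E : Type} [RCLike 𝕜] [NormedAddCommGroup E] [NormedSpace 𝕜 E]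
    (x : ℕ → E) : Prop :=
  ∀ y, ∃! α : ℕ → 𝕜, Expands 𝕜 x α y

/-- Minimal sequence. -/
def IsMinimal (𝕜 : Type) {E : Type} [RCLike 𝕜] [NormedAddCommGroup E] [NormedSpace 𝕜 E]
    (x : ℕ → E) : Prop :=
  ∀ m, x m ∉ closure (Submodule.span 𝕜 (x '' {n | n ≠ m}) : Set E)

/-- Property (U). -/
def PropU (𝕜 : Type) {E : Type} [RCLike 𝕜] [NormedAddCommGroup E] [NormedSpace 𝕜 E]
    (x : ℕ → E) : Prop :=
  ∀ y, ∃! α : ℕ → 𝕜, ∃ σ : ℕ ≃ ℕ, Expands 𝕜 (x ∘ σ) (α ∘ σ) y

variable {𝕜 : Type} [RCLike 𝕜]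

theorem greedy (m : ℕ) (u : Fin m → 𝕜) (S : 𝕜) (h : S + ∑ j, u j = 0) :
    ∃ π : Equiv.Perm (Fin m), ∀ r : ℕ,
      ‖S + ∑ j : Fin m, if (j : ℕ) < r then u (π j) else 0‖ ^ 2 ≤ ‖S‖ ^ 2 + ∑ j, ‖u j‖ ^ 2 := by
  induction m generalizing S with
  | zero => exact ⟨1, fun r => by simp⟩
  | succ m ih =>
    have h1 : ∃ i, RCLike.re (inner 𝕜 S (u i)) ≤ 0 := by
      by_contra hc
      push Not at hc
      have h2 : 0 < ∑ i, RCLike.re (inner 𝕜 S (u i)) :=
        Finset.sum_pos (fun i _ => hc i) Finset.univ_nonempty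
      rw [← map_sum, ← inner_sum, eq_neg_of_add_eq_zero_right h, inner_neg_right, map_neg,
        inner_self_eq_norm_sq] at h2
      nlinarith [sq_nonneg ‖S‖]
    obtain ⟨i, hi⟩ := h1
    have h3 : ‖S + u i‖ ^ 2 ≤ ‖S‖ ^ 2 + ‖u i‖ ^ 2 := by
      rw [@norm_add_sq 𝕜]; linarith
    obtain ⟨π, hπ⟩ := ih (fun j => u (i.succAbove j)) (S + u i) (by
      rw [add_assoc, ← Fin.sum_univ_succAbove u i, h])
    refine ⟨((finSuccEquiv m).trans π.optionCongr).trans (finSuccEquiv' i).symm, fun r => ?_⟩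
    have h4 : 0 ≤ ∑ j, ‖u j‖ ^ 2 := Finset.sum_nonneg fun _ _ => by positivity
    cases r with
    | zero => simpa using h4
    | succ r =>
      have := hπ r
      rw [Fin.sum_univ_succ, Fin.sum_univ_succAbove (fun j => ‖u j‖ ^ 2) i]
      simp only [Fin.val_zero, Nat.zero_lt_succ, if_true, Equiv.trans_apply, finSuccEquiv_zero,
        Equiv.optionCongr_apply, Option.map_none, finSuccEquiv'_symm_none, Fin.val_succ,
        Nat.add_lt_add_iff_right, finSuccEquiv_succ, Option.map_some, finSuccEquiv'_symm_some]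
      rw [← add_assoc]
      linarith

variable (𝕜) in
def H (m : ℕ) : Submodule 𝕜 (EuclideanSpace 𝕜 (Fin m) × 𝕜) where
  carrier := {p | p.2 = ∑ i, p.1 i}
  add_mem' := fun {a b} ha hb => by
    simp only [Set.mem_ofPred_eq] at ha hb ⊢
    simp [ha, hb, Finset.sum_add_distrib]
  zero_mem' := by simp
  smul_mem' := fun c a ha => by
    simp only [Set.mem_ofPred_eq] at ha ⊢
    simp [ha, Finset.mul_sum]

instance (m : ℕ) : CompleteSpace (H 𝕜 m) := FiniteDimensional.complete 𝕜 _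

noncomputable def mkH {m : ℕ} (a : Fin m → 𝕜) : H 𝕜 m := ⟨(WithLp.toLp 2 a, ∑ i, a i), rfl⟩

noncomputable def v {m : ℕ} (i : Fin m) : H 𝕜 m := mkH (Pi.single i 1)

theorem sum_v {m : ℕ} (a : Fin m → 𝕜) : ∑ i, a i • v i = mkH a := by
  apply Subtype.ext
  refine Prod.ext ?_ ?_
  · ext j
    simp [v, mkH, Prod.fst_sum, Pi.single_apply]
  · simp [v, mkH, Prod.snd_sum]

theorem mkH_self {m : ℕ} (y : H 𝕜 m) : mkH (fun i => y.1.1 i) = y :=
  Subtype.ext (Prod.ext rfl y.2.symm)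

theorem block_order {m : ℕ} (y : H 𝕜 m) : ∃ π : Equiv.Perm (Fin m), ∀ r : ℕ,
    ‖∑ j : Fin m, if (j : ℕ) < r then y.1.1 (π j) • (v (π j) : H 𝕜 m) else 0‖ ≤ 3 * ‖y‖ := by
  obtain ⟨π, hπ⟩ := greedy m (fun i => y.1.1 i) (-y.1.2) (by rw [← y.2]; simp)
  refine ⟨π, fun r => ?_⟩
  have n1 : ‖y.1.1‖ ≤ ‖y‖ := norm_fst_le y.1
  have n2 : ‖y.1.2‖ ≤ ‖y‖ := norm_snd_le y.1
  have e : (∑ j : Fin m, if (j : ℕ) < r then y.1.1 (π j) • (v (π j) : H 𝕜 m) else 0) =
      mkH (fun i => if ((π.symm i : Fin m) : ℕ) < r then y.1.1 i else 0) := by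
    rw [← sum_v]
    conv_rhs => rw [← Equiv.sum_comp π]
    refine Finset.sum_congr rfl fun j _ => ?_
    rw [Equiv.symm_apply_apply]
    split_ifs <;> simp
  rw [e]
  refine max_le ?_ ?_
  · have : ‖(WithLp.toLp 2 fun i => if ((π.symm i : Fin m) : ℕ) < r then y.1.1 i else 0 :
        EuclideanSpace 𝕜 (Fin m))‖ ≤ ‖y.1.1‖ := by
      rw [EuclideanSpace.norm_eq, EuclideanSpace.norm_eq]
      refine Real.sqrt_le_sqrt (Finset.sum_le_sum fun i _ => ?_)
      simp only
      split_ifs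
      · exact le_rfl
      · simp
    change ‖(WithLp.toLp 2 _ : EuclideanSpace 𝕜 (Fin m))‖ ≤ _
    linarith [norm_nonneg y]
  · have h1 := hπ r
    rw [← EuclideanSpace.norm_sq_eq, norm_neg] at h1
    change ‖∑ i, if ((π.symm i : Fin m) : ℕ) < r then y.1.1 i else 0‖ ≤ _
    rw [← Equiv.sum_comp π]
    simp only [Equiv.symm_apply_apply]
    set P := ∑ j : Fin m, if (j : ℕ) < r then y.1.1 (π j) else 0
    have h2 : ‖-y.1.2 + P‖ ≤ 2 * ‖y‖ := by
      refine le_of_sq_le_sq ?_ (by positivity)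
      nlinarith [norm_nonneg y.1.1, norm_nonneg y.1.2]
    have h3 := norm_add_le y.1.2 (-y.1.2 + P)
    rw [add_neg_cancel_left] at h3
    linarith

def idx : ℕ ≃ Σ k : ℕ, Fin (2 * k + 1) where
  toFun n := ⟨Nat.sqrt n, ⟨n - Nat.sqrt n * Nat.sqrt n, by
    have := Nat.lt_succ_sqrt n
    have h : Nat.succ n.sqrt * Nat.succ n.sqrt = n.sqrt * n.sqrt + 2 * n.sqrt + 1 := by
      simp only [Nat.succ_eq_add_one]; ring
    omega⟩⟩
  invFun q := q.1 * q.1 + q.2
  left_inv n := by have := Nat.sqrt_le n; simp only; omega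
  right_inv q := by
    obtain ⟨k, j⟩ := q
    have h : Nat.sqrt (k * k + j) = k := Nat.sqrt_add_eq k (by have := j.2; omega)
    refine Sigma.ext h ?_
    refine (Fin.heq_ext_iff (by simp only [h])).2 ?_
    simp only [h]; omega

theorem idx_add (k : ℕ) (j : Fin (2 * k + 1)) : idx (k * k + j) = ⟨k, j⟩ :=
  idx.apply_symm_apply ⟨k, j⟩

theorem sum_idx {M : Type} [AddCommMonoid M] (g : (Σ k : ℕ, Fin (2 * k + 1)) → M) (K r : ℕ)
    (hr : r ≤ 2 * K + 1) :
    ∑ i ∈ Finset.range (K * K + r), g (idx i) = ∑ k ∈ Finset.range K, ∑ j, g ⟨k, j⟩ +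
      ∑ j : Fin (2 * K + 1), if (j : ℕ) < r then g ⟨K, j⟩ else 0 := by
  have part : ∀ K r, r ≤ 2 * K + 1 → ∑ i ∈ Finset.range r, g (idx (K * K + i)) =
      ∑ j : Fin (2 * K + 1), if (j : ℕ) < r then g ⟨K, j⟩ else 0 := by
    intro K r hr
    have : ∑ j : Fin (2 * K + 1), (if (j : ℕ) < r then g ⟨K, j⟩ else 0) =
        ∑ j : Fin (2 * K + 1), (fun i : ℕ => if i < r then g (idx (K * K + i)) else 0) j :=
      Finset.sum_congr rfl fun j _ => by simp only [idx_add]
    rw [this, Fin.sum_univ_eq_sum_range (fun i : ℕ => if i < r then g (idx (K * K + i)) else 0),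
      ← Finset.sum_filter]
    congr 1
    ext i; simp only [Finset.mem_range, Finset.mem_filter]; omega
  have full : ∀ K, ∑ i ∈ Finset.range (K * K), g (idx i) =
      ∑ k ∈ Finset.range K, ∑ j, g ⟨k, j⟩ := by
    intro K
    induction K with
    | zero => simp
    | succ K ih =>
      rw [show (K + 1) * (K + 1) = K * K + (2 * K + 1) by ring, Finset.sum_range_add, ih,
        part K _ le_rfl, Finset.sum_range_succ]
      congr 1
      exact Finset.sum_congr rfl fun j _ => if_pos j.2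
  rw [Finset.sum_range_add, full, part K r hr]

variable (𝕜) in
noncomputable abbrev E := lp (fun k : ℕ => H 𝕜 (2 * k + 1)) 2

noncomputable def X (q : Σ k : ℕ, Fin (2 * k + 1)) : E 𝕜 := lp.single 2 q.1 (v q.2)

noncomputable def co (q : Σ k : ℕ, Fin (2 * k + 1)) : E 𝕜 →L[𝕜] 𝕜 :=
  (EuclideanSpace.proj q.2).comp ((ContinuousLinearMap.fst 𝕜 _ _).comp
    ((H 𝕜 (2 * q.1 + 1)).subtypeL.comp (lp.evalCLM 𝕜 (fun k : ℕ => H 𝕜 (2 * k + 1)) 2 q.1)))

theorem co_apply (q : Σ k : ℕ, Fin (2 * k + 1)) (y : E 𝕜) : co q y = (y q.1).1.1 q.2 := rfl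

theorem co_single (k : ℕ) (z : H 𝕜 (2 * k + 1)) (k' : ℕ) (hk : k' ≠ k) (j : Fin (2 * k' + 1)) :
    co ⟨k', j⟩ (lp.single 2 k z : E 𝕜) = 0 := by
  rw [co_apply, lp.single_apply_ne _ _ _ hk]; rfl

theorem co_X (q q' : Σ k : ℕ, Fin (2 * k + 1)) :
    co q (X q' : E 𝕜) = if q = q' then 1 else 0 := by
  obtain ⟨k, j⟩ := q
  obtain ⟨k', j'⟩ := q'
  by_cases h : k = k'
  · subst h
    rw [co_apply, X, lp.single_apply_self]
    simp [v, mkH, Pi.single_apply]
  · rw [X, co_single _ _ _ h, if_neg fun e => h (congrArg Sigma.fst e)]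

theorem uniq (σ : ℕ ≃ ℕ) (β : ℕ → 𝕜) (y : E 𝕜)
    (h : Expands 𝕜 ((fun n => X (idx n)) ∘ σ) β y) (i : ℕ) : β i = co (idx (σ i)) y := by
  have h1 := ((co (𝕜 := 𝕜) (idx (σ i))).continuous.tendsto y).comp h
  refine tendsto_nhds_unique (tendsto_const_nhds.congr' ?_) h1
  filter_upwards [eventually_gt_atTop i] with N hN
  simp only [Function.comp, map_sum, map_smul, co_X, EmbeddingLike.apply_eq_iff_eq, smul_eq_mul,
    mul_ite, mul_one, mul_zero]
  rw [Finset.sum_ite_eq, if_pos (Finset.mem_range.2 hN)]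

theorem smul_X (k : ℕ) (j : Fin (2 * k + 1)) (c : 𝕜) :
    c • (X ⟨k, j⟩ : E 𝕜) = lp.singleContinuousLinearMap 𝕜 _ 2 k (c • v j) := by
  rw [map_smul]; rfl

theorem exists_order (y : E 𝕜) : ∃ σ : ℕ ≃ ℕ,
    Expands 𝕜 ((fun n => X (idx n)) ∘ σ) ((fun n => co (idx n) y) ∘ σ) y := by
  choose π hπ using fun k => block_order (y k)
  refine ⟨idx.trans ((Equiv.sigmaCongrRight π).trans idx.symm), ?_⟩
  have hs : HasSum (fun k => lp.single 2 k (y k)) y := lp.hasSum_single (by simp) y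
  have hsq : Tendsto Nat.sqrt atTop atTop :=
    tendsto_atTop_atTop_of_monotone (fun a b h => Nat.sqrt_le_sqrt h)
      fun b => ⟨b * b, by rw [Nat.sqrt_eq]⟩
  have h0 : Tendsto (fun k => 3 * ‖y k‖) atTop (𝓝 0) := by
    have := (hs.summable.tendsto_atTop_zero.norm).const_mul 3
    simp only [norm_zero, mul_zero] at this
    refine this.congr fun k => ?_
    rw [lp.norm_single (by simp)]
  let R : ℕ → E 𝕜 := fun N => lp.single 2 (Nat.sqrt N) (∑ j : Fin (2 * Nat.sqrt N + 1),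
    if (j : ℕ) < N - Nat.sqrt N * Nat.sqrt N then (y _).1.1 (π _ j) • v (π _ j) else 0)
  have hR : Tendsto R atTop (𝓝 0) := by
    refine squeeze_zero_norm (fun N => ?_) (h0.comp hsq)
    simp only [R]
    rw [lp.norm_single (by simp)]
    exact hπ _ _
  have := (hs.tendsto_sum_nat.comp hsq).add hR
  rw [add_zero] at this
  refine this.congr fun N => ?_
  have hN : N = Nat.sqrt N * Nat.sqrt N + (N - Nat.sqrt N * Nat.sqrt N) := by
    have := Nat.sqrt_le N; omega
  have h2 := sum_idx (fun q => co ⟨q.1, π q.1 q.2⟩ y • (X ⟨q.1, π q.1 q.2⟩ : E 𝕜)) (Nat.sqrt N)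
    (N - Nat.sqrt N * Nat.sqrt N) (idx N).2.2.le
  rw [← hN] at h2
  simp only [Function.comp, Equiv.trans_apply, Equiv.apply_symm_apply]
  refine Eq.trans ?_ h2.symm
  congr 1
  · refine Finset.sum_congr rfl fun k _ => ?_
    simp only [smul_X]
    rw [← map_sum, Equiv.sum_comp (π k) (fun j => co ⟨k, j⟩ y • (v j : H 𝕜 (2 * k + 1))), sum_v]
    rw [show (mkH fun i => co ⟨k, i⟩ y) = y k from mkH_self (y k)]
    rfl
  · simp only [smul_X, R]
    change lp.singleContinuousLinearMap 𝕜 _ 2 _ _ = _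
    rw [map_sum]
    refine Finset.sum_congr rfl fun j _ => ?_
    split_ifs
    · rfl
    · exact map_zero _

theorem exists_cut {m : ℕ} (f : Fin m → ℕ) (hf : Function.Injective f) (c : ℕ) (hc : c ≤ m) :
    ∃ N, (Finset.univ.filter fun j => f j < N).card = c := by
  have ex : ∃ N, c ≤ (Finset.univ.filter fun j => f j < N).card := by
    refine ⟨Finset.univ.sup f + 1, ?_⟩
    rw [Finset.filter_true_of_mem fun j hj => Nat.lt_succ_of_le (Finset.le_sup (f := f) hj)]
    simpa using hc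
  refine ⟨Nat.find ex, le_antisymm ?_ (Nat.find_spec ex)⟩
  rcases Nat.eq_zero_or_eq_succ_pred (Nat.find ex) with h | h
  · rw [h]; simp
  · have h1 := Nat.find_min ex (m := (Nat.find ex).pred) (by omega)
    rw [h]
    set N := (Nat.find ex).pred
    have h2 : (Finset.univ.filter fun j => f j < N.succ) ⊆
        (Finset.univ.filter fun j => f j < N) ∪ (Finset.univ.filter fun j => f j = N) := by
      intro j hj
      simp only [Finset.mem_filter, Finset.mem_union, Finset.mem_univ, true_and] at hj ⊢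
      omega
    have h3 : (Finset.univ.filter fun j => f j = N).card ≤ 1 :=
      Finset.card_le_one.2 fun a ha b hb =>
        hf ((Finset.mem_filter.1 ha).2.trans (Finset.mem_filter.1 hb).2.symm)
    have := (Finset.card_le_card h2).trans (Finset.card_union_le _ _)
    omega

theorem not_basis (τ : ℕ ≃ ℕ) : ¬ IsBasis 𝕜 ((fun n => (X (idx n) : E 𝕜)) ∘ τ) := by
  intro hb
  let S : ℕ → E 𝕜 →L[𝕜] E 𝕜 := fun N =>
    ∑ i ∈ Finset.range N, (co (idx (τ i))).smulRight (X (idx (τ i)))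
  have hS : ∀ N y, S N y = ∑ i ∈ Finset.range N, co (idx (τ i)) y • X (idx (τ i)) := by
    intro N y; simp [S]
  obtain ⟨C, hC⟩ : ∃ C, ∀ N, ‖S N‖ ≤ C := by
    refine banach_steinhaus fun y => ?_
    obtain ⟨α, hα, -⟩ := hb y
    obtain ⟨C, hC⟩ := (hα.norm).bddAbove_range
    refine ⟨C, fun N => hC ⟨N, ?_⟩⟩
    rw [hS]
    simp only [uniq τ α y hα, Function.comp]
  have hC0 : 0 ≤ C := (ContinuousLinearMap.opNorm_nonneg _).trans (hC 0)
  obtain ⟨k, hk⟩ := exists_nat_gt (3 * C ^ 2 + 1)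
  let f : Fin (2 * k + 1) → ℕ := fun j => τ.symm (idx.symm ⟨k, j⟩)
  have hf : Function.Injective f := fun a b h => by
    have := idx.symm.injective (τ.symm.injective h)
    simpa using this
  obtain ⟨N, hN⟩ := exists_cut f hf k (by omega)
  let a : Fin (2 * k + 1) → 𝕜 := fun j => if f j < N then 1 else -1
  let y : E 𝕜 := lp.single 2 k (mkH a)
  have hk1 : (1 : ℝ) ≤ k := by nlinarith
  have hy : ‖y‖ ^ 2 ≤ 3 * k := by
    simp only [y]
    rw [lp.norm_single (by simp)]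
    have h1 : ‖(WithLp.toLp 2 a : EuclideanSpace 𝕜 (Fin (2 * k + 1)))‖ ^ 2 = 2 * k + 1 := by
      rw [EuclideanSpace.norm_sq_eq]
      have : ∀ j, ‖a j‖ ^ 2 = 1 := fun j => by simp only [a]; split_ifs <;> simp
      simp [this]
    have h2 : ∑ j, a j = -1 := by
      have h3 := Finset.card_filter_add_card_filter_not (s := Finset.univ) (fun j => f j < N)
      rw [hN, Finset.card_univ, Fintype.card_fin] at h3
      simp only [a]
      rw [Finset.sum_ite, Finset.sum_const, Finset.sum_const, hN,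
        show (Finset.univ.filter fun j => ¬ f j < N).card = k + 1 by omega]
      simp
    change (max ‖(WithLp.toLp 2 a : EuclideanSpace 𝕜 (Fin (2 * k + 1)))‖ ‖∑ j, a j‖) ^ 2 ≤ _
    rw [h2, norm_neg, norm_one]
    rcases max_choice ‖(WithLp.toLp 2 a : EuclideanSpace 𝕜 (Fin (2 * k + 1)))‖ 1 with h | h <;>
      rw [h] <;> linarith
  have h4 : ((S N y) k).1.2 = k := by
    rw [((S N y) k).2]
    have : ∀ j, ((S N y) k).1.1 j = if f j < N then 1 else 0 := by
      intro j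
      change co ⟨k, j⟩ (S N y) = _
      rw [hS, map_sum]
      have e : ∀ i, ((⟨k, j⟩ : Σ k : ℕ, Fin (2 * k + 1)) = idx (τ i)) ↔ f j = i := fun i => by
        simp only [f]
        rw [Equiv.symm_apply_eq, Equiv.symm_apply_eq]
      simp only [map_smul, co_X, e, smul_eq_mul, mul_ite, mul_one, mul_zero]
      rw [Finset.sum_ite_eq]
      simp only [Finset.mem_range]
      split_ifs with h
      · simp only [f, Equiv.apply_symm_apply]
        rw [co_apply]
        simp only [y]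
        rw [lp.single_apply_self]
        exact if_pos h
      · rfl
    simp only [this]
    rw [Finset.sum_boole, hN]
  have h5 : (k : ℝ) ≤ C * ‖y‖ := by
    have a1 : ‖((S N y) k).1.2‖ ≤ ‖(S N y) k‖ := norm_snd_le _
    have a2 := lp.norm_apply_le_norm (by simp) (S N y) k
    have a3 := (S N).le_of_opNorm_le (hC N) y
    rw [h4, RCLike.norm_natCast] at a1
    linarith
  have h6 := pow_le_pow_left₀ (by positivity) h5 2
  rw [mul_pow] at h6
  have h7 := mul_le_mul_of_nonneg_left hy (sq_nonneg C)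
  nlinarith

theorem result (𝕜 : Type) [RCLike 𝕜] :
    ∃ (E : Type) (_ : NormedAddCommGroup E) (_ : NormedSpace 𝕜 E) (x : ℕ → E),
      CompleteSpace E ∧ TopologicalSpace.SeparableSpace E ∧ IsMinimal 𝕜 x ∧ PropU 𝕜 x ∧
        ∀ τ : ℕ ≃ ℕ, ¬ IsBasis 𝕜 (x ∘ τ) := by
  refine ⟨E 𝕜, inferInstance, inferInstance, fun n => X (idx n), inferInstance, ?_, ?_, ?_,
    not_basis⟩
  · rw [← TopologicalSpace.isSeparable_univ_iff]
    have h := ((Set.countable_range fun n => (X (idx n) : E 𝕜)).isSeparable.span (R := 𝕜)).closure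
    refine h.mono fun y _ => ?_
    obtain ⟨σ, hσ⟩ := exists_order y
    exact mem_closure_of_tendsto hσ (Eventually.of_forall fun N =>
      Submodule.sum_mem _ fun i _ => Submodule.smul_mem _ _ (Submodule.subset_span ⟨σ i, rfl⟩))
  · intro m hm
    have h1 : (Submodule.span 𝕜 ((fun n => (X (idx n) : E 𝕜)) '' {n | n ≠ m}) : Set (E 𝕜)) ⊆
        (co (𝕜 := 𝕜) (idx m)).ker := by
      refine Submodule.span_le.2 ?_
      rintro _ ⟨n, hn, rfl⟩
      change co (idx m) (X (idx n)) = 0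
      rw [co_X, if_neg fun e => hn (idx.injective e).symm]
    have h2 := closure_minimal h1 (co (𝕜 := 𝕜) (idx m)).isClosed_ker hm
    change co (idx m) (X (idx m)) = 0 at h2
    rw [co_X, if_pos rfl] at h2
    exact one_ne_zero h2
  · intro y
    refine ⟨fun n => co (idx n) y, exists_order y, ?_⟩
    rintro β ⟨σ, hσ⟩
    funext n
    have := uniq σ _ y hσ (σ.symm n)
    simpa using this

end Pool.Agent.Results.MP_514f39_an.PermNoBasis
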